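import Pool.Agent.W525.CB.Stm

/-! Project CB, part DIF: relations between the differentials. -/

set_option autoImplicit false

namespace Pool.Agent.W881.CB.DIF

open Pool.Agent.W525.CB

section

variable {n : ℕ} {L : Type} [Field L] [CharP L (n + 2)]

theorem D_pow_char (w : L) : KaehlerDifferential.D ℤ L (w ^ (n + 2)) = 0 := by
  rw [Derivation.leibniz_pow]
  have h : ((n + 2 : ℕ) : L) = 0 := CharP.cast_eq_zero L (n + 2)
  rw [← Nat.cast_smul_eq_nsmul L, h, zero_smul]

theorem D_mul_pow (s w : L) : KaehlerDifferential.D ℤ L (s * w ^ (n + 2)) =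
    w ^ (n + 2) • KaehlerDifferential.D ℤ L s := by
  rw [Derivation.leibniz, D_pow_char, smul_zero, zero_add]

theorem D_pow_odd (s : L) : KaehlerDifferential.D ℤ L (s ^ (2 * n + 5)) =
    s ^ (2 * n + 4) • KaehlerDifferential.D ℤ L s := by
  rw [Derivation.leibniz_pow]
  have h : ((n + 2 : ℕ) : L) = 0 := CharP.cast_eq_zero L (n + 2)
  have h1 : ((2 * n + 5 : ℕ) : L) = 1 := by
    have e : 2 * n + 5 = 2 * (n + 2) + 1 := by ring
    rw [e, Nat.cast_add, Nat.cast_mul, h]
    simp
  rw [← Nat.cast_smul_eq_nsmul L, h1, one_smul]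
  rfl

end

theorem main : S_REL → S_DIF := by
  intro hrel n L _ _ _ x y hn hd σ
  obtain ⟨-, h2, h3, h4⟩ := hrel n L x y hn hd σ
  have hs0 : ss x σ 0 = 1 := by
    unfold ss
    exact div_self (hd.nx _)
  refine ⟨?_, ?_, ?_⟩
  · have h := congrArg (fun z => KaehlerDifferential.D ℤ L z) h2
    simp only [map_sum, map_zero, D_pow_odd] at h
    rw [Fin.sum_univ_succ, hs0, Derivation.map_one_eq_zero, smul_zero, zero_add] at h
    exact h
  · have h := congrArg (fun z => KaehlerDifferential.D ℤ L z) h3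
    simp only [map_add, map_sum, map_zero, D_mul_pow] at h
    exact eq_neg_of_add_eq_zero_left h
  · have h := congrArg (fun z => KaehlerDifferential.D ℤ L z) h4
    simp only [map_sum, D_mul_pow, map_neg, Derivation.map_one_eq_zero, neg_zero] at h
    exact h

end Pool.Agent.W881.CB.DIF
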